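import Pool.Agent.helper83.SC.Stmt

open MeasureTheory Set Filter Topology

namespace Pool.Agent.helper83.SC

theorem loc_bdd_of : loc_bdd_stmt := by
  intro m g f hg h R
  obtain ⟨u, hu, -⟩ := Convex.exists_subset_interior_convexHull_finset_of_isCompact
    (convex_closedBall (0 : E m) R) (isCompact_closedBall (0 : E m) R) (t := univ) (by simp)
  have hb : ∀ y, ∃ C, ∀ k, |g k y| ≤ C := by
    intro y
    obtain ⟨C, hC⟩ := (h y).abs.bddAbove_range
    exact ⟨C, fun k => hC ⟨k, rfl⟩⟩
  choose C hC using hb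
  have hC0 : ∀ y, 0 ≤ C y := fun y => (abs_nonneg _).trans (hC y 0)
  have hup : ∀ k x, ‖x‖ ≤ R → g k x ≤ ∑ y ∈ u, C y := by
    intro k x hx
    have hx' : x ∈ convexHull ℝ (u : Set (E m)) :=
      interior_subset (hu (by simpa using hx))
    obtain ⟨y, hy, hxy⟩ := (hg k).exists_ge_of_mem_convexHull (subset_univ _) hx'
    refine hxy.trans ((le_abs_self _).trans ((hC y k).trans ?_))
    exact Finset.single_le_sum (f := C) (fun i _ => hC0 i) hy
  refine ⟨∑ y ∈ u, C y + 2 * C 0, fun k x hx => ?_⟩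
  have h1 := hup k x hx
  have h2 := hup k (-x) (by simpa using hx)
  have h3 : g k 0 ≤ (1 / 2 : ℝ) * g k x + (1 / 2 : ℝ) * g k (-x) := by
    have := (hg k).2 (mem_univ x) (mem_univ (-x)) (by norm_num : (0 : ℝ) ≤ 1 / 2)
      (by norm_num : (0 : ℝ) ≤ 1 / 2) (by norm_num)
    have e : (1 / 2 : ℝ) • x + (1 / 2 : ℝ) • (-x) = 0 := by rw [smul_neg, add_neg_cancel]
    rw [e] at this
    simpa only [smul_eq_mul] using this
  have h4 := abs_le.mp (hC 0 k)
  have h5 := hC0 0
  rw [abs_le]
  constructor <;> linarith [h4.1, h4.2]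

theorem loc_lip_of (h1 : loc_bdd_stmt) : loc_lip_stmt := by
  intro m g f hg h R
  obtain ⟨C, hC⟩ := h1 hg h (R + 2)
  refine ⟨((2 * C / 1).toNNReal : ℝ), fun k x y hx hy => ?_⟩
  have hc : ConvexOn ℝ (Metric.ball (0 : E m) (R + 2)) (g k) :=
    (hg k).subset (subset_univ _) (convex_ball _ _)
  have hl := hc.lipschitzOnWith_of_abs_le (ε := 1) (M := C) one_pos (fun a ha => by
    refine hC k a ?_
    rw [dist_zero_right] at ha
    exact ha.le)
  have hx' : x ∈ Metric.ball (0 : E m) (R + 2 - 1) := by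
    rw [Metric.mem_ball, dist_zero_right]; linarith
  have hy' : y ∈ Metric.ball (0 : E m) (R + 2 - 1) := by
    rw [Metric.mem_ball, dist_zero_right]; linarith
  have := hl.dist_le_mul x hx' y hy'
  rwa [Real.dist_eq, dist_eq_norm] at this

theorem tendsto_diag_of (h2 : loc_lip_stmt) : tendsto_diag_stmt := by
  intro m g f hg h x y hy
  obtain ⟨L, hL⟩ := h2 hg h (‖x‖ + 1)
  have hn : Tendsto (fun k => ‖y k - x‖) atTop (𝓝 0) := by
    have := (hy.sub_const x).norm
    simpa using this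
  have hev : ∀ᶠ k in atTop, ‖y k‖ ≤ ‖x‖ + 1 := by
    have h3 : ∀ᶠ k in atTop, ‖y k - x‖ < 1 := hn.eventually (gt_mem_nhds one_pos)
    filter_upwards [h3] with k hk
    have : ‖y k‖ ≤ ‖y k - x‖ + ‖x‖ := by
      have := norm_add_le (y k - x) x
      simpa using this
    linarith
  have h5 : Tendsto (fun k => g k (y k) - g k x) atTop (𝓝 0) := by
    have h6 : Tendsto (fun k => L * ‖y k - x‖) atTop (𝓝 0) := by
      simpa using hn.const_mul L
    refine squeeze_zero_norm' ?_ h6
    filter_upwards [hev] with k hk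
    rw [Real.norm_eq_abs]
    exact hL k (y k) x hk (by linarith)
  have := h5.add (h x)
  simpa using this

end Pool.Agent.helper83.SC
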