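import Pool.Agent.helper83.SC.Stmt

open MeasureTheory Set Filter Topology

namespace Pool.Agent.helper83.SC

/-- a local minimiser is a global one -/
theorem AP2_local {m : ℕ} {h : E m → ℝ} (hh : CV h) {p y : E m}
    (hl : ∀ᶠ z in 𝓝 y, h y - inner ℝ p y ≤ h z - inner ℝ p z) : IsArgmin h p y := by
  have hc : ConvexOn ℝ univ (fun z => h z - inner ℝ p z) := by
    refine hh.sub ?_
    refine ⟨convex_univ, fun a _ b _ s t _ _ _ => ?_⟩
    rw [inner_add_right, inner_smul_right, inner_smul_right]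
    exact le_rfl
  exact IsMinOn.of_isLocalMin_of_convex_univ (f := fun z => h z - inner ℝ p z) hl hc

theorem AP2_transfer {m : ℕ} {h h' : E m → ℝ} (hh' : CV h') {U : Set (E m)}
    (hU : IsOpen U) (he : ∀ x ∈ U, h x = h' x) {p y : E m} (hy : y ∈ U) (ha : IsArgmin h p y) :
    IsArgmin h' p y := by
  refine AP2_local hh' ?_
  filter_upwards [hU.mem_nhds hy] with z hz
  rw [← he y hy, ← he z hz]
  exact ha z

theorem AP2_sel {m : ℕ} {φ h : E m → ℝ} {p y : E m} (hy : IsArgmin h p y)
    (hu : ∀ y y', IsArgmin h p y → IsArgmin h p y' → y = y') : sel φ h p = φ y := by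
  have : {y | IsArgmin h p y} = {y} := by
    ext z
    simp only [mem_setOf_eq, mem_singleton_iff]
    exact ⟨fun hz => hu z y hz hy, fun hz => by rw [hz]; exact hy⟩
  unfold sel
  rw [this, image_singleton, csSup_singleton]

theorem AP2_sel_none {m : ℕ} {φ h : E m → ℝ} {p : E m} (hn : ∀ y, ¬ IsArgmin h p y) :
    sel φ h p = 0 := by
  have : {y | IsArgmin h p y} = ∅ := by
    ext z
    simp only [mem_setOf_eq, mem_empty_iff_false, iff_false]
    exact hn z
  unfold sel
  rw [this, image_empty, Real.sSup_empty]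

theorem A_congr_of (h1 : ae_argmin_unique_stmt) : A_congr_stmt := by
  intro m φ h h' hφ hh hh' U hU hφU he
  unfold A
  refine integral_congr_ae ?_
  filter_upwards [h1 hh, h1 hh'] with p hp hp'
  by_cases hx : ∃ y ∈ U, IsArgmin h p y
  · obtain ⟨y, hy, ha⟩ := hx
    rw [AP2_sel ha hp, AP2_sel (AP2_transfer hh' hU he hy ha) hp']
  by_cases hx' : ∃ y ∈ U, IsArgmin h' p y
  · obtain ⟨y, hy, ha⟩ := hx'
    rw [AP2_sel ha hp', AP2_sel (AP2_transfer hh hU (fun x hx => (he x hx).symm) hy ha) hp]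
  have key : ∀ k : E m → ℝ, (∀ y y', IsArgmin k p y → IsArgmin k p y' → y = y') →
      (¬ ∃ y ∈ U, IsArgmin k p y) → sel φ k p = 0 := by
    intro k hk hne
    by_cases hex : ∃ y, IsArgmin k p y
    · obtain ⟨y, hy⟩ := hex
      rw [AP2_sel hy hk]
      by_contra hne0
      exact hne ⟨y, hφU (subset_tsupport φ hne0), hy⟩
    · exact AP2_sel_none (fun y hy => hex ⟨y, hy⟩)
  rw [key h hp hx, key h' hp' hx']

theorem AP2_inner {m : ℕ} {h h' : E m → ℝ} (hh : CV h) (hh' : CV h') {r₁ r : ℝ}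
    (hr : r₁ < r) (he : ∀ x, r₁ ≤ ‖x‖ → h x = h' x) {p y : E m} (hy : ‖y‖ < r)
    (ha : IsArgmin h p y) : ∃ z, ‖z‖ < r ∧ IsArgmin h' p z := by
  obtain ⟨s, hs1, hs2⟩ := exists_between (max_lt hy hr)
  have hys : ‖y‖ < s := lt_of_le_of_lt (le_max_left _ _) hs1
  have hrs : r₁ < s := lt_of_le_of_lt (le_max_right _ _) hs1
  have hs0 : 0 < s := lt_of_le_of_lt (norm_nonneg _) hys
  have hcont : Continuous (fun z => h' z - inner ℝ p z) := by
    have hc : Continuous h' := by
      have := hh'.continuousOn isOpen_univ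
      exact continuousOn_univ.mp this
    exact hc.sub (continuous_const.inner continuous_id)
  obtain ⟨z, hz, hzm⟩ := (isCompact_closedBall (0 : E m) s).exists_isMinOn
    ⟨0, by simp [hs0.le]⟩ hcont.continuousOn
  have hz' : ‖z‖ ≤ s := by simpa using hz
  have hmin : ∀ w : E m, ‖w‖ ≤ s → h' z - inner ℝ p z ≤ h' w - inner ℝ p w := by
    intro w hw
    exact hzm (by simpa using hw)
  -- an interior minimiser on the ball is global
  have hint : ∀ w : E m, ‖w‖ < s → (h' w - inner ℝ p w ≤ h' z - inner ℝ p z) → IsArgmin h' p w := by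
    intro w hw hle
    refine AP2_local hh' ?_
    have ho : IsOpen {v : E m | ‖v‖ < s} := isOpen_lt continuous_norm continuous_const
    filter_upwards [ho.mem_nhds hw] with v hv
    exact hle.trans (hmin v (le_of_lt hv))
  rcases lt_or_eq_of_le hz' with hlt | heq
  · exact ⟨z, hlt.trans hs2, hint z hlt le_rfl⟩
  · -- the path from z to y
    have hcw : Continuous (fun t : ℝ => ‖z + t • (y - z)‖) := by fun_prop
    have h0 : r₁ < ‖z + (0 : ℝ) • (y - z)‖ := by
      rw [zero_smul, add_zero, heq]; exact hrs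
    have hev : ∀ᶠ t : ℝ in 𝓝 0, r₁ < ‖z + t • (y - z)‖ :=
      hcw.continuousAt.eventually (lt_mem_nhds h0)
    obtain ⟨ε, hε, hball⟩ := Metric.eventually_nhds_iff.mp hev
    obtain ⟨t, ht0, ht1⟩ := exists_between (lt_min hε one_pos)
    have htε : t < ε := lt_of_lt_of_le ht1 (min_le_left _ _)
    have ht1' : t < 1 := lt_of_lt_of_le ht1 (min_le_right _ _)
    have hw1 : r₁ < ‖z + t • (y - z)‖ := hball (by
      rw [Real.dist_eq, sub_zero, abs_of_pos ht0]; exact htε)
    have hwe : z + t • (y - z) = (1 - t) • z + t • y := by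
      rw [smul_sub, sub_smul, one_smul]; abel
    have hw2 : ‖z + t • (y - z)‖ < s := by
      rw [hwe]
      calc ‖(1 - t) • z + t • y‖ ≤ ‖(1 - t) • z‖ + ‖t • y‖ := norm_add_le _ _
        _ = (1 - t) * ‖z‖ + t * ‖y‖ := by
          rw [norm_smul, norm_smul, Real.norm_of_nonneg (by linarith), Real.norm_of_nonneg ht0.le]
        _ < (1 - t) * s + t * s := by
          have := mul_lt_mul_of_pos_left hys ht0
          rw [heq]; linarith
        _ = s := by ring
    have hle : h' (z + t • (y - z)) - inner ℝ p (z + t • (y - z)) ≤ h' z - inner ℝ p z := by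
      rw [← he _ hw1.le, ← he z (by rw [heq]; exact hrs.le), hwe]
      have hc := hh.2 (mem_univ z) (mem_univ y) (by linarith : (0 : ℝ) ≤ 1 - t) ht0.le (by ring)
      simp only [smul_eq_mul] at hc
      rw [inner_add_right, inner_smul_right, inner_smul_right]
      have h3 := ha z
      have h4 : t * (h y - inner ℝ p y) ≤ t * (h z - inner ℝ p z) :=
        mul_le_mul_of_nonneg_left h3 ht0.le
      nlinarith
    exact ⟨z + t • (y - z), hw2.trans hs2, hint _ hw2 hle⟩

theorem A_plateau_of (h1 : ae_argmin_unique_stmt) : A_plateau_stmt := by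
  intro m φ h h' hφ hh hh' r₁ r hr he hone
  unfold A
  refine integral_congr_ae ?_
  filter_upwards [h1 hh, h1 hh'] with p hp hp'
  have key : ∀ k k' : E m → ℝ, CV k → CV k' → (∀ x, r₁ ≤ ‖x‖ → k x = k' x) →
      (∀ y y', IsArgmin k p y → IsArgmin k p y' → y = y') →
      (∀ y y', IsArgmin k' p y → IsArgmin k' p y' → y = y') →
      ∀ y, IsArgmin k p y → sel φ k p = sel φ k' p := by
    intro k k' hk hk' hkk hu hu' y hy
    rcases lt_or_ge ‖y‖ r with hlt | hge
    · obtain ⟨z, hz, hz'⟩ := AP2_inner hk hk' hr hkk hlt hy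
      rw [AP2_sel hy hu, AP2_sel hz' hu', hone y hlt, hone z hz]
    · have ho : IsOpen {v : E m | r₁ < ‖v‖} := isOpen_lt continuous_const continuous_norm
      have hy' : IsArgmin k' p y :=
        AP2_transfer hk' ho (fun x hx => hkk x (le_of_lt hx)) (lt_of_lt_of_le hr hge) hy
      rw [AP2_sel hy hu, AP2_sel hy' hu']
  by_cases hx : ∃ y, IsArgmin h p y
  · obtain ⟨y, hy⟩ := hx
    exact key h h' hh hh' he hp hp' y hy
  by_cases hx' : ∃ y, IsArgmin h' p y
  · obtain ⟨y, hy⟩ := hx'
    exact (key h' h hh' hh (fun x hx => (he x hx).symm) hp' hp y hy).symm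
  rw [AP2_sel_none (fun y hy => hx ⟨y, hy⟩), AP2_sel_none (fun y hy => hx' ⟨y, hy⟩)]

end Pool.Agent.helper83.SC
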